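import Pool.Agent.Q292.TS.TaskSub
import Pool.Agent.Q292.TS.TaskCantor
import Pool.Agent.Q292.TS.TaskNoInt
import Pool.Agent.Q292.TS.TaskLam
import Pool.Agent.Q292.TS.TaskMono
import Pool.Agent.Q292.TS.TaskLong
import Pool.Agent.Q292.TS.TaskF
import Pool.Agent.Q292.TS.TaskUp
import Pool.Agent.Q292.TS.TaskFinish
import Pool.Agent.Q292.TS.TaskPieces
import Pool.Agent.Q292.TS.TaskPlace
import Pool.Agent.Q292.TS.TaskGlue
import Pool.Agent.Q292.TS.TaskClimb
import Pool.Agent.Q292.TS.TaskDense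
import Pool.Agent.Q292.TS.TaskMain
import Pool.Agent.Q292.TS.Conv

/-!
# MP_8027ba_an: every nonempty compact perfect subset of the line is a set of sums

The question asks which nonempty compact perfect `X ⊆ ℝ` are homeomorphic to
`S = {∑ x_j : x_j ∈ K_j}` for some compact sets `K_j ⊆ [0,∞)` containing `0`, of positive diameter, with
summable diameters. Answer: all of them.
-/

set_option autoImplicit false

namespace Pool.Agent.Results.MP_8027ba_an.EveryPerfectSet

open Set

/-- A subset `X` of the line is homeomorphic to the set of sums of some sequence `(K i)` of compact sets as in the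
question if and only if it is nonempty, compact and perfect (a compact set without isolated points). -/
theorem result (X : Set ℝ) :
    (X.Nonempty ∧ IsCompact X ∧ Preperfect X) ↔
    ∃ K : ℕ → Set ℝ,
      (∀ i, IsCompact (K i) ∧ (0 : ℝ) ∈ K i ∧ K i ⊆ Ici 0 ∧ 0 < Metric.diam (K i)) ∧
      Summable (fun i => Metric.diam (K i)) ∧
      Nonempty (X ≃ₜ {s : ℝ | ∃ x : ℕ → ℝ, (∀ j, x j ∈ K j) ∧ HasSum x s}) := by
  constructor
  · rintro ⟨hne, hX, hperf⟩
    obtain ⟨K, ⟨h1, h2⟩, h3⟩ := Q292.TS.Main Q292.TS.Sub Q292.TS.Cantor Q292.TS.NoInt Q292.TS.F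
      Q292.TS.Finish Q292.TS.Pieces Q292.TS.Place Q292.TS.Glue Q292.TS.Dense Q292.TS.Lam
      Q292.TS.Mono Q292.TS.Long Q292.TS.Climb Q292.TS.Up X hX hne hperf
    exact ⟨K, h1, h2, h3⟩
  · rintro ⟨K, h1, h2, ⟨e⟩⟩
    obtain ⟨a, b, c⟩ := Q292.TS.Conv X K ⟨h1, h2⟩ e
    exact ⟨b, a, c⟩

end Pool.Agent.Results.MP_8027ba_an.EveryPerfectSet
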